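import Pool.Agent.Lib.MP_21a058_co.Swap.Extr

/-! MP_21a058_co, iterated swaps: the batch form of the extremal choice.  A fixed rest `univ \ U`
is never packed again; only the trees which make up `U` are. -/

set_option autoImplicit false

namespace Pool.Agent.Lib.MP_21a058_co.Iter

open Finset
open Pool.Agent.Lib.MP_21a058_co.P
open Pool.Agent.Lib.MP_21a058_co.Every
open Pool.Agent.Lib.MP_21a058_co.Swap

variable {V E : Type} [Fintype V] [DecidableEq V] [Fintype E] [DecidableEq E] {a b : E → V}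

theorem sum_leB {t u : ℕ} {T : Fin t → Finset E} {S : Fin u → Finset E} (h : Pk a b T S)
    {U : Finset E} (hU : un T ∪ un S = U) (Y : Finset V) :
    (cut a b Y \ U).card + ∑ j, (S j ∩ cut a b Y).card ≤ (cut a b Y \ un T).card := by
  rw [← card_biUnion]
  · rw [← card_union_of_disjoint]
    · apply card_le_card
      intro e he
      rw [mem_union] at he
      rcases he with he | he
      · rw [mem_sdiff, ← hU, mem_union, not_or] at he
        exact mem_sdiff.2 ⟨he.1, he.2.1⟩
      · obtain ⟨j, -, hj⟩ := mem_biUnion.1 he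
        rw [mem_inter] at hj
        rw [mem_sdiff]
        refine ⟨hj.2, fun hu => ?_⟩
        obtain ⟨i, hi⟩ := mem_un.1 hu
        exact disjoint_left.1 (h.d i j) hi hj.1
    · rw [disjoint_left]
      intro e he he'
      obtain ⟨j, -, hj⟩ := mem_biUnion.1 he'
      rw [mem_inter] at hj
      rw [mem_sdiff, ← hU, mem_union, not_or] at he
      exact he.2.2 (mem_un.2 ⟨j, hj.1⟩)
  · intro i _ j _ hij
    exact (h.tS.2 i j hij).mono inter_subset_left inter_subset_left

/-- an exchange keeps the union -/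
theorem exch_un {t u : ℕ} {T : Fin t → Finset E} {S : Fin u → Finset E} (h : Pk a b T S)
    {U : Finset E} (hU : un T ∪ un S = U) {i : Fin t} {j : Fin u} {f g : E} (hf : f ∈ T i)
    (hg : g ∈ S j) :
    un (Function.update T i (insert g ((T i).erase f))) ∪
      un (Function.update S j (insert f ((S j).erase g))) = U := by
  rw [← hU]
  have hfS : ∀ k, f ∉ S k := fun k hk => disjoint_left.1 (h.d i k) hf hk
  have hgT : ∀ k, g ∉ T k := fun k hk => disjoint_left.1 (h.d k j) hk hg
  have mT : ∀ k e, e ∈ Function.update T i (insert g ((T i).erase f)) k →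
      e ∈ T k ∨ e = g := by
    intro k e
    by_cases hk : k = i
    · subst hk
      rw [Function.update_self, mem_insert, mem_erase]
      rintro (h1 | h1)
      · exact Or.inr h1
      · exact Or.inl h1.2
    · rw [Function.update_of_ne hk]
      exact Or.inl
  have mS : ∀ k e, e ∈ Function.update S j (insert f ((S j).erase g)) k →
      e ∈ S k ∨ e = f := by
    intro k e
    by_cases hk : k = j
    · subst hk
      rw [Function.update_self, mem_insert, mem_erase]
      rintro (h1 | h1)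
      · exact Or.inr h1
      · exact Or.inl h1.2
    · rw [Function.update_of_ne hk]
      exact Or.inl
  have nT : ∀ k e, e ∈ T k → e ≠ f → e ∈ Function.update T i (insert g ((T i).erase f)) k := by
    intro k e he hne
    by_cases hk : k = i
    · subst hk
      rw [Function.update_self, mem_insert, mem_erase]
      exact Or.inr ⟨hne, he⟩
    · rw [Function.update_of_ne hk]
      exact he
  have nS : ∀ k e, e ∈ S k → e ≠ g → e ∈ Function.update S j (insert f ((S j).erase g)) k := by
    intro k e he hne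
    by_cases hk : k = j
    · subst hk
      rw [Function.update_self, mem_insert, mem_erase]
      exact Or.inr ⟨hne, he⟩
    · rw [Function.update_of_ne hk]
      exact he
  ext e
  simp only [mem_union, mem_un]
  constructor
  · rintro (⟨k, hk⟩ | ⟨k, hk⟩)
    · rcases mT k e hk with h1 | h1
      · exact Or.inl ⟨k, h1⟩
      · exact Or.inr ⟨j, h1 ▸ hg⟩
    · rcases mS k e hk with h1 | h1
      · exact Or.inr ⟨k, h1⟩
      · exact Or.inl ⟨i, h1 ▸ hf⟩
  · rintro (⟨k, hk⟩ | ⟨k, hk⟩)
    · by_cases hef : e = f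
      · refine Or.inr ⟨j, ?_⟩
        rw [Function.update_self, mem_insert]
        exact Or.inl hef
      · exact Or.inl ⟨k, nT k e hk hef⟩
    · by_cases heg : e = g
      · refine Or.inl ⟨i, ?_⟩
        rw [Function.update_self, mem_insert]
        exact Or.inl heg
      · exact Or.inr ⟨k, nS k e hk heg⟩

/-- a weak set inside which some tree of the first group is not connected: the potential can be
lowered -/
theorem stepB {t u l c0 lam : ℕ} (hl : 2 * l ≤ c0 + 3 * u) (hl2 : l ≤ lam + 2 * u) (r : V)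
    {U : Finset E}
    (hlam : ∀ Y : Finset V, Y.Nonempty → Y ≠ univ → lam ≤ (cut a b Y \ U).card)
    (hc0 : ∀ X Y : Finset V, (X ∩ Y).Nonempty → (X \ Y).Nonempty → (Y \ X).Nonempty →
      X ∪ Y ≠ univ → c0 ≤ (cut a b X \ U).card + (cut a b Y \ U).card)
    {T : Fin t → Finset E}
    {S : Fin u → Finset E} (h : Pk a b T S) (hU : un T ∪ un S = U) {X : Finset V}
    (hX : X.Nonempty) (hr : r ∉ X)
    (hw : (cut a b X \ un T).card < l) {i : Fin t} (hi : (T i ∩ ins a b X).card + 1 < X.card)
    {M : ℕ} (hM : 2 ^ Fintype.card V * l < M) :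
    ∃ (T' : Fin t → Finset E) (S' : Fin u → Finset E), Pk a b T' S' ∧ un T' ∪ un S' = U ∧
      pot a b r l M T' < pot a b r l M T := by
  have hXu : X ≠ univ := fun hh => hr (hh ▸ mem_univ r)
  have hs1 := sum_leB h hU X
  have hlX := hlam X hX hXu
  -- one tree of the second group crosses `X` once
  obtain ⟨j, hj⟩ : ∃ j, (S j ∩ cut a b X).card = 1 := by
    by_contra hcon
    push Not at hcon
    have h1 : ∑ _j : Fin u, 2 ≤ ∑ j, (S j ∩ cut a b X).card := by
      apply sum_le_sum
      intro j _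
      have h2 := one_le_cut (h.tS.1 j) hX hXu
      have h3 := hcon j
      omega
    rw [sum_const, card_univ, Fintype.card_fin, smul_eq_mul] at h1
    omega
  obtain ⟨e, he⟩ := card_eq_one.1 hj
  obtain ⟨f, hf, g, hg, hfX, hgX, ht, hs⟩ := exchange a b (h.tT.1 i) (h.tS.1 j) (h.d i j) he hi
  obtain ⟨hP, hun⟩ := h.exch hf hg ht hs
  have hU' := exch_un h hU hf hg
  refine ⟨_, _, hP, hU', ?_⟩
  set T' := Function.update T i (insert g ((T i).erase f)) with hT'
  set S' := Function.update S j (insert f ((S j).erase g)) with hS'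
  -- the cuts which `g` does not cross
  have hgood : ∀ Z : Finset V, g ∉ cut a b Z →
      (cut a b Z \ un T).card ≤ (cut a b Z \ un T').card := by
    intro Z hgZ
    apply card_le_card
    intro x hx
    rw [mem_sdiff] at hx ⊢
    refine ⟨hx.1, fun hh => ?_⟩
    rcases (hun x).1 hh with h1 | h1
    · exact hx.2 h1.1
    · exact hgZ (h1 ▸ hx.1)
  have hgX' : g ∉ cut a b X := by
    rw [mem_ins] at hgX
    rw [mem_cut]
    exact fun hh => hh ⟨fun _ => hgX.2, fun _ => hgX.1⟩
  have hfg : f ≠ g := fun hh => disjoint_left.1 (h.d i j) hf (hh ▸ hg)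
  have hself : (cut a b X \ un T).card + 1 ≤ (cut a b X \ un T').card := by
    have h1 : insert f (cut a b X \ un T) ⊆ cut a b X \ un T' := by
      intro x hx
      rw [mem_insert] at hx
      rw [mem_sdiff]
      rcases hx with rfl | hx
      · refine ⟨hfX, fun hh => ?_⟩
        rcases (hun x).1 hh with h1 | h1
        · exact h1.2 rfl
        · exact hfg h1
      · rw [mem_sdiff] at hx
        refine ⟨hx.1, fun hh => ?_⟩
        rcases (hun x).1 hh with h1 | h1
        · exact hx.2 h1.1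
        · exact hgX' (h1 ▸ hx.1)
    have h2 := card_le_card h1
    rwa [card_insert_of_notMem (fun hh => (mem_sdiff.1 hh).2 (mem_un.2 ⟨i, hf⟩))] at h2
  have hu0 : 0 < u := lt_of_le_of_lt (Nat.zero_le _) j.isLt
  have hcross : ∀ Z : Finset V, (Z ∩ X).Nonempty → (Z \ X).Nonempty → (X \ Z).Nonempty →
      r ∉ Z → l ≤ (cut a b Z \ un T').card := by
    intro Z g1 g2 g3 hrZ
    have g4 : X ∪ Z ≠ univ := by
      intro hh
      have h5 : r ∈ X ∪ Z := by rw [hh]; exact mem_univ r
      rw [mem_union] at h5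
      exact h5.elim hr hrZ
    have hZu : Z ≠ univ := fun hh => hrZ (hh ▸ mem_univ r)
    have hZn : Z.Nonempty := g1.mono inter_subset_left
    have k1 := sum_leB hP hU' Z
    have k0 := hc0 X Z (by rwa [inter_comm]) g3 g2 g4
    rw [← add_sum_erase univ _ (mem_univ j)] at k1
    have k2 := one_le_cut (hP.tS.1 j) hZn hZu
    have k3 : ∑ x ∈ univ.erase j, (S' x ∩ cut a b Z).card =
        ∑ x ∈ univ.erase j, (S x ∩ cut a b Z).card := by
      apply sum_congr rfl
      intro x hx
      rw [hS', Function.update_of_ne (ne_of_mem_erase hx)]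
    rw [k3] at k1
    have k4 : ∑ _x ∈ (univ : Finset (Fin u)).erase j, 3 ≤ ∑ x ∈ univ.erase j,
        ((S x ∩ cut a b X).card + (S x ∩ cut a b Z).card) :=
      sum_le_sum fun x _ => corners_le (h.tS.1 x).1 (by rwa [inter_comm]) g3 g2 g4
    rw [sum_add_distrib, sum_const, card_erase_of_mem (mem_univ _), card_univ, Fintype.card_fin,
      smul_eq_mul] at k4
    rw [← add_sum_erase univ _ (mem_univ j), hj] at hs1
    change 1 ≤ (S' j ∩ cut a b Z).card at k2
    omega
  -- the potential
  set F := univ.filter (fun Y : Finset V => Y.Nonempty ∧ r ∉ Y) with hF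
  have hXF : X ∈ F := mem_filter.2 ⟨mem_univ _, hX, hr⟩
  set c : Finset V → ℕ := fun Y => M ^ Y.card * (l - (cut a b Y \ un T).card) with hc
  set c' : Finset V → ℕ := fun Y => M ^ Y.card * (l - (cut a b Y \ un T').card) with hc'
  change ∑ Y ∈ F, c' Y < ∑ Y ∈ F, c Y
  have hM0 : 0 < M := lt_of_le_of_lt (Nat.zero_le _) hM
  have e1 : ∀ Z ∈ F, Z ≠ X → ¬ Z ⊂ X → c' Z ≤ c Z := by
    intro Z hZ hne hns
    rw [hF, mem_filter] at hZ
    apply Nat.mul_le_mul_left
    by_cases h1 : X ⊆ Z
    · have h2 : g ∉ cut a b Z := by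
        rw [mem_ins] at hgX
        rw [mem_cut]
        exact fun hh => hh ⟨fun _ => h1 hgX.2, fun _ => h1 hgX.1⟩
      have := hgood Z h2
      omega
    by_cases h3 : Disjoint X Z
    · have h2 : g ∉ cut a b Z := by
        rw [mem_ins] at hgX
        rw [mem_cut]
        exact fun hh => hh ⟨fun h4 => absurd h4 (disjoint_left.1 h3 hgX.1),
          fun h4 => absurd h4 (disjoint_left.1 h3 hgX.2)⟩
      have := hgood Z h2
      omega
    · have g1 : (Z ∩ X).Nonempty := by
        rw [not_disjoint_iff] at h3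
        obtain ⟨x, hx1, hx2⟩ := h3
        exact ⟨x, mem_inter.2 ⟨hx2, hx1⟩⟩
      have g2 : (Z \ X).Nonempty := by
        rw [sdiff_nonempty]
        exact fun hh => hns (hh.ssubset_of_ne hne)
      have g3 : (X \ Z).Nonempty := by
        rw [sdiff_nonempty]
        exact h1
      have := hcross Z g1 g2 g3 hZ.2.2
      omega
  have e2 : c' X + M ^ X.card ≤ c X := by
    have h1 : (l - (cut a b X \ un T').card) + 1 ≤ l - (cut a b X \ un T).card := by omega
    calc c' X + M ^ X.card = M ^ X.card * ((l - (cut a b X \ un T').card) + 1) := by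
          rw [hc']; ring
      _ ≤ c X := Nat.mul_le_mul_left _ h1
  have e3 : ∑ Z ∈ F.filter (fun Z => Z ⊂ X), c' Z < M ^ X.card := by
    have h1 : ∀ Z ∈ F.filter (fun Z => Z ⊂ X), c' Z ≤ M ^ (X.card - 1) * l := by
      intro Z hZ
      have h2 := card_lt_card (mem_filter.1 hZ).2
      calc c' Z ≤ M ^ Z.card * l := Nat.mul_le_mul_left _ (Nat.sub_le _ _)
        _ ≤ M ^ (X.card - 1) * l :=
          Nat.mul_le_mul_right _ (Nat.pow_le_pow_right hM0 (by omega))
    have h2 : ∑ Z ∈ F.filter (fun Z => Z ⊂ X), c' Z ≤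
        (F.filter (fun Z => Z ⊂ X)).card * (M ^ (X.card - 1) * l) := by
      have := sum_le_sum h1
      rwa [sum_const, smul_eq_mul] at this
    have h3 : (F.filter (fun Z => Z ⊂ X)).card ≤ 2 ^ Fintype.card V := by
      rw [← Fintype.card_finset]
      exact card_le_univ _
    obtain ⟨x, hx⟩ : ∃ x, X.card = x + 1 := ⟨X.card - 1, by have := hX.card_pos; omega⟩
    rw [hx] at h2 ⊢
    simp only [Nat.add_sub_cancel] at h2
    calc ∑ Z ∈ F.filter (fun Z => Z ⊂ X), c' Z
        ≤ (F.filter (fun Z => Z ⊂ X)).card * (M ^ x * l) := h2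
      _ ≤ 2 ^ Fintype.card V * (M ^ x * l) := Nat.mul_le_mul_right _ h3
      _ = M ^ x * (2 ^ Fintype.card V * l) := by ring
      _ < M ^ x * M := Nat.mul_lt_mul_of_pos_left hM (Nat.pow_pos hM0)
      _ = M ^ (x + 1) := by rw [pow_succ]
  have e4 : X ∈ F.filter (fun Z => ¬ Z ⊂ X) := mem_filter.2 ⟨hXF, fun hh => hh.2 (Subset.refl _)⟩
  have e5 : ∑ Z ∈ (F.filter (fun Z => ¬ Z ⊂ X)).erase X, c' Z ≤
      ∑ Z ∈ (F.filter (fun Z => ¬ Z ⊂ X)).erase X, c Z := by
    apply sum_le_sum
    intro Z hZ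
    have h1 := mem_filter.1 (mem_of_mem_erase hZ)
    exact e1 Z h1.1 (ne_of_mem_erase hZ) h1.2
  rw [← sum_filter_add_sum_filter_not F (fun Z => Z ⊂ X) c',
    ← sum_filter_add_sum_filter_not F (fun Z => Z ⊂ X) c, ← add_sum_erase _ c' e4,
    ← add_sum_erase _ c e4]
  have e6 : 0 ≤ ∑ Z ∈ F.filter (fun Z => Z ⊂ X), c Z := Nat.zero_le _
  omega

/-- **the batch form of the extremal choice** -/
theorem extremalB (r : V) {t u l c0 lam : ℕ} {U : Finset E}
    (hlam : ∀ Y : Finset V, Y.Nonempty → Y ≠ univ → lam ≤ (cut a b Y \ U).card)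
    (hc0 : ∀ X Y : Finset V, (X ∩ Y).Nonempty → (X \ Y).Nonempty → (Y \ X).Nonempty →
      X ∪ Y ≠ univ → c0 ≤ (cut a b X \ U).card + (cut a b Y \ U).card)
    (T0 : Fin t → Finset E) (S0 : Fin u → Finset E) (h0 : Pk a b T0 S0)
    (hU0 : un T0 ∪ un S0 = U) (hl : 2 * l ≤ c0 + 3 * u) (hl2 : l ≤ lam + 2 * u) :
    ∃ (T : Fin t → Finset E) (S : Fin u → Finset E), Pk a b T S ∧ un T ∪ un S = U ∧
      (∀ Y : Finset V, Y.Nonempty → Y ≠ univ → lam + u ≤ (cut a b Y \ un T).card) ∧
      (∀ X Y : Finset V, r ∉ X → r ∉ Y → (cut a b X \ un T).card < l →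
        (cut a b Y \ un T).card < l → X ⊆ Y ∨ Y ⊆ X ∨ Disjoint X Y) ∧
      ∀ Y : Finset V, Y.Nonempty → r ∉ Y → (cut a b Y \ un T).card < l →
        ∀ i, (T i ∩ ins a b Y).card + 1 = Y.card := by
  classical
  obtain ⟨⟨T, S⟩, hmem, hmin⟩ := exists_min_image
    (univ.filter fun q : (Fin t → Finset E) × (Fin u → Finset E) =>
      Pk a b q.1 q.2 ∧ un q.1 ∪ un q.2 = U)
    (fun q => pot a b r l (2 ^ Fintype.card V * l + 1) q.1) ⟨(T0, S0), by simpa using ⟨h0, hU0⟩⟩
  rw [mem_filter] at hmem
  have h : Pk a b T S := hmem.2.1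
  have hU : un T ∪ un S = U := hmem.2.2
  refine ⟨T, S, h, hU, ?_, ?_, ?_⟩
  · intro Y hY hYu
    refine le_trans ?_ (sum_leB h hU Y)
    have h1 : ∑ _j : Fin u, 1 ≤ ∑ j : Fin u, (S j ∩ cut a b Y).card :=
      sum_le_sum fun j _ => one_le_cut (h.tS.1 j) hY hYu
    have h2 := hlam Y hY hYu
    rw [sum_const, card_univ, Fintype.card_fin, smul_eq_mul, mul_one] at h1
    omega
  · intro X Y hrX hrY hX hY
    by_contra hcon
    rw [not_or, not_or] at hcon
    obtain ⟨h1, h2, h3⟩ := hcon
    have g1 : (X ∩ Y).Nonempty := by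
      rw [not_disjoint_iff] at h3
      obtain ⟨x, hx1, hx2⟩ := h3
      exact ⟨x, mem_inter.2 ⟨hx1, hx2⟩⟩
    have g2 : (X \ Y).Nonempty := by
      rw [sdiff_nonempty]
      exact h1
    have g3 : (Y \ X).Nonempty := by
      rw [sdiff_nonempty]
      exact h2
    have g4 : X ∪ Y ≠ univ := by
      intro h
      have h5 : r ∈ X ∪ Y := by rw [h]; exact mem_univ r
      rw [mem_union] at h5
      exact h5.elim hrX hrY
    have h6 : ∑ _j : Fin u, 3 ≤ ∑ j : Fin u, ((S j ∩ cut a b X).card +
        (S j ∩ cut a b Y).card) :=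
      sum_le_sum fun j _ => corners_le (h.tS.1 j).1 g1 g2 g3 g4
    rw [sum_add_distrib, sum_const, card_univ, Fintype.card_fin, smul_eq_mul] at h6
    have h7 := sum_leB h hU X
    have h8 := sum_leB h hU Y
    have h9 := hc0 X Y g1 g2 g3 g4
    omega
  · intro Y hY hr hw i
    by_contra hcon
    have h1 := Tree.ins_le a b (h.tT.1 i) hY
    obtain ⟨T', S', hP', hU', hlt⟩ := stepB hl hl2 r hlam hc0 h hU hY hr hw (i := i) (by omega)
      (M := 2 ^ Fintype.card V * l + 1) (by omega)
    have h2 := hmin (T', S') (by simpa using ⟨hP', hU'⟩)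
    have h3 : pot a b r l (2 ^ Fintype.card V * l + 1) T ≤
      pot a b r l (2 ^ Fintype.card V * l + 1) T' := h2
    omega

end Pool.Agent.Lib.MP_21a058_co.Iter
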