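import Pool.Agent.Lib.MP_21a058_co.Iter.ExtrB

/-! MP_21a058_co, iterated swaps: the extremal choice for a pool of disjoint spanning trees. -/

set_option autoImplicit false

namespace Pool.Agent.Lib.MP_21a058_co.Iter

open Finset
open Pool.Agent.Lib.MP_21a058_co.P
open Pool.Agent.Lib.MP_21a058_co.Every
open Pool.Agent.Lib.MP_21a058_co.Swap

variable {V E : Type} [Fintype V] [DecidableEq V] [Fintype E] [DecidableEq E] (a b : E → V)

/-- `nu` disjoint trees have `3 nu` edges at two crossing sets. -/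
theorem three_nu {nu : ℕ} {N : Fin nu → Finset E} (hN : Trees a b N) {U : Finset E}
    (hd : Disjoint (un N) U) {X Y : Finset V} (h1 : (X ∩ Y).Nonempty) (h2 : (X \ Y).Nonempty)
    (h3 : (Y \ X).Nonempty) (h4 : X ∪ Y ≠ univ) :
    3 * nu ≤ (cut a b X \ U).card + (cut a b Y \ U).card := by
  have key : ∀ Z : Finset V, ∑ i, (N i ∩ cut a b Z).card ≤ (cut a b Z \ U).card := by
    intro Z
    rw [← card_biUnion]
    · apply card_le_card
      intro e he
      obtain ⟨i, -, hi⟩ := mem_biUnion.1 he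
      rw [mem_inter] at hi
      rw [mem_sdiff]
      exact ⟨hi.2, fun hu => disjoint_left.1 hd (mem_un.2 ⟨i, hi.1⟩) hu⟩
    · intro i _ j _ hij
      exact (hN.2 i j hij).mono inter_subset_left inter_subset_left
  have h5 : ∑ _i : Fin nu, 3 ≤ ∑ i, ((N i ∩ cut a b X).card + (N i ∩ cut a b Y).card) :=
    sum_le_sum fun i _ => corners_le (hN.1 i).1 h1 h2 h3 h4
  rw [sum_add_distrib, sum_const, card_univ, Fintype.card_fin, smul_eq_mul] at h5
  have h6 := key X
  have h7 := key Y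
  omega

theorem extrB (r : V) {al q nu lam l : ℕ} (hq : q ≤ al) (P : Fin al → Finset E)
    (hP : Trees a b P)
    (hnu : ∃ N : Fin nu → Finset E, Trees a b N ∧ Disjoint (un N) (un P))
    (hlam : ∀ Y : Finset V, Y.Nonempty → Y ≠ univ → lam ≤ (cut a b Y \ un P).card)
    (h3 : 2 * l ≤ 3 * (nu + q)) (h2 : l ≤ lam + 2 * q) :
    ∃ (T : Fin (al - q) → Finset E) (B : Fin q → Finset E), Trees a b T ∧ Trees a b B ∧
      Disjoint (un T) (un B) ∧ un T ∪ un B = un P ∧
      (∀ Y : Finset V, Y.Nonempty → Y ≠ univ → lam + q ≤ (cut a b Y \ un T).card) ∧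
      (∀ X Y : Finset V, r ∉ X → r ∉ Y → (cut a b X \ un T).card < l →
        (cut a b Y \ un T).card < l → X ⊆ Y ∨ Y ⊆ X ∨ Disjoint X Y) ∧
      ∀ Y : Finset V, Y.Nonempty → r ∉ Y → (cut a b Y \ un T).card < l →
        ∀ i, (T i ∩ ins a b Y).card + 1 = Y.card := by
  obtain ⟨N, hN, hd⟩ := hnu
  set T0 : Fin (al - q) → Finset E := fun i => P ⟨i.1, by have := i.2; omega⟩ with hT0
  set S0 : Fin q → Finset E := fun j => P ⟨al - q + j.1, by have := j.2; omega⟩ with hS0
  have h0 : Pk a b T0 S0 := by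
    refine ⟨⟨fun i => hP.1 _, fun i j hij => hP.2 _ _ ?_⟩,
      ⟨fun i => hP.1 _, fun i j hij => hP.2 _ _ ?_⟩, fun i j => hP.2 _ _ ?_⟩
    · intro hh
      have h4 := congrArg Fin.val hh
      exact hij (Fin.ext h4)
    · intro hh
      have h4 := congrArg Fin.val hh
      simp only [] at h4
      exact hij (Fin.ext (by omega))
    · intro hh
      have h4 := congrArg Fin.val hh
      simp only [] at h4
      have := i.2
      omega
  have hU : un T0 ∪ un S0 = un P := by
    ext e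
    simp only [mem_union, mem_un]
    constructor
    · rintro (⟨i, hi⟩ | ⟨j, hj⟩)
      · exact ⟨_, hi⟩
      · exact ⟨_, hj⟩
    · rintro ⟨i, hi⟩
      by_cases hlt : i.1 < al - q
      · exact Or.inl ⟨⟨i.1, hlt⟩, hi⟩
      · refine Or.inr ⟨⟨i.1 - (al - q), by have := i.2; omega⟩, ?_⟩
        have h5 : (⟨al - q + (i.1 - (al - q)), by have := i.2; omega⟩ : Fin al) = i :=
          Fin.ext (by simp only []; omega)
        simp only [hS0]
        rw [h5]
        exact hi
  obtain ⟨T, S, hPk, hun, hc, hl1, hl2'⟩ := extremalB (a := a) (b := b) (l := l) (c0 := 3 * nu) r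
    hlam (fun X Y g1 g2 g3 g4 => three_nu a b hN hd g1 g2 g3 g4) T0 S0 h0 hU (by omega) h2
  refine ⟨T, S, hPk.tT, hPk.tS, ?_, hun, hc, hl1, hl2'⟩
  rw [disjoint_left]
  intro e h5 h6
  obtain ⟨i, hi⟩ := mem_un.1 h5
  obtain ⟨j, hj⟩ := mem_un.1 h6
  exact disjoint_left.1 (hPk.d i j) hi hj

end Pool.Agent.Lib.MP_21a058_co.Iter
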