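import Pool.Agent.Lib.MP_21a058_co.Swap.Num

/-! MP_21a058_co, all tuples, the numbers of the iterated form. -/

namespace Pool.Agent.Lib.MP_21a058_co.Iter

open Finset
open Pool.Agent.Lib.MP_21a058_co.P
open Pool.Agent.Lib.MP_21a058_co.Swap

/-- The numbers for which the iterated graph theorem is proved: `M` rounds with `h` trees
exchanged and `h` trees released, `c` trees are lost on each side in every round. -/
def IterAll (c : ℕ) : Prop := ∀ M h m s l : ℕ, c ≤ h → s + M * (2 * h + c) ≤ m →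
  2 * l + h + 3 * M * c ≤ 6 * M * h → Core m 0 s l

/-- all tuples, parametric form -/
theorem num4_m {c : ℕ} (H : IterAll c) {r : ℕ} (ks : Fin r → ℕ) (j : Fin r) (M h m : ℕ)
    (h1 : c ≤ h) (h2 : (∑ i ∈ univ.erase j, ks i) + M * (2 * h + c) ≤ m)
    (h3 : 2 * ks j + h + 3 * M * c ≤ 6 * M * h) : Arrow (2 * m) ks := by
  have h4 := arrow_core (t := m) (u := 0) (H M h m _ _ h1 h2 h3) ks j le_rfl le_rfl
  simpa using h4

/-- the number of rounds is about `√l / 12` -/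
theorem exists_rounds (l : ℕ) : ∃ M h : ℕ, 7 ≤ h ∧ 2 * l + h + 3 * M * 7 ≤ 6 * M * h ∧
    3 * (M * (2 * h + 7)) ≤ 2 * l + 8 * Nat.sqrt l + 63 := by
  by_cases hl : l ≤ 7
  · exact ⟨1, 7, le_rfl, by omega, by omega⟩
  push Not at hl
  have hr1 : Nat.sqrt l * Nat.sqrt l ≤ l := Nat.sqrt_le l
  have hr2 : l < (Nat.sqrt l + 1) * (Nat.sqrt l + 1) := Nat.lt_succ_sqrt l
  generalize Nat.sqrt l = r at *
  obtain ⟨M, i, hM, hi⟩ : ∃ M i, r = 12 * M + i ∧ i < 12 := ⟨r / 12, r % 12, by omega, by omega⟩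
  -- `M + 1` rounds, `q = 6 (M + 1) - 1`
  obtain ⟨h, e, he, heq⟩ : ∃ h e, (6 * M + 5) * h + e = 2 * l + 21 * (M + 1) ∧ e < 6 * M + 5 :=
    ⟨(2 * l + 21 * (M + 1)) / (6 * M + 5), (2 * l + 21 * (M + 1)) % (6 * M + 5),
      Nat.div_add_mod _ _, Nat.mod_lt _ (by omega)⟩
  have hrl : r ≤ l := by
    rcases Nat.eq_zero_or_pos r with h0 | h0
    · omega
    · exact le_trans (Nat.le_mul_of_pos_left r h0) hr1
  have h6 : 6 ≤ h := by
    by_contra hh
    push Not at hh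
    have h7 : (6 * M + 5) * h ≤ (6 * M + 5) * 5 := Nat.mul_le_mul_left _ (by omega)
    omega
  have h8 : h + 48 * (M + 1) ≤ 8 * r + 63 := by
    by_contra hh
    push Not at hh
    have h9 : 48 * M + 8 * i + 16 ≤ h := by omega
    have h10 : (6 * M + 5) * (48 * M + 8 * i + 16) ≤ (6 * M + 5) * h :=
      Nat.mul_le_mul_left _ h9
    subst hM
    have h11 : i * i ≤ 11 * i := Nat.mul_le_mul_right _ (by omega)
    nlinarith
  refine ⟨M + 1, h + 1, by omega, ?_, ?_⟩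
  · have e1 : 6 * (M + 1) * (h + 1) = (6 * M + 5) * h + (6 * M + 5) + (h + 1) := by ring
    rw [e1]
    omega
  · have e1 : 3 * ((M + 1) * (2 * (h + 1) + 7)) =
        (6 * M + 5) * h + (6 * M + 5) + (h + 1) + 21 * (M + 1) := by ring
    rw [e1]
    omega

/-- all tuples, closed form: `f ≤ 2 S - (2 / 3) k_j + (16 / 3) √k_j + 43` -/
theorem num4_sqrt (H : IterAll 7) {r : ℕ} (ks : Fin r → ℕ) (j : Fin r) (k : ℕ)
    (hk : 6 * (∑ i, ks i) + 16 * Nat.sqrt (ks j) + 129 ≤ 3 * k + 2 * ks j) : Arrow k ks := by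
  have hS := sum_split ks j
  obtain ⟨M, h, h1, h2, h3⟩ := exists_rounds (ks j)
  refine arrow_mono (show 2 * (k / 2) ≤ k by omega) (num4_m H ks j M h (k / 2) h1 ?_ h2)
  omega

end Pool.Agent.Lib.MP_21a058_co.Iter
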