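import Pool.Agent.Lib.MP_21a058_co.Iter.Round
import Pool.Agent.Lib.MP_21a058_co.Iter.Num

/-! MP_21a058_co, iteration: `M` rounds. -/

set_option autoImplicit false

namespace Pool.Agent.Lib.MP_21a058_co.Iter

open Finset
open Pool.Agent.Lib.MP_21a058_co.P Pool.Agent.Lib.MP_21a058_co.Every
open Pool.Agent.Lib.MP_21a058_co.Swap

variable {V E : Type} [Fintype V] [DecidableEq V] [Fintype E] [DecidableEq E] {a b : E → V}

/-- fewer trees are needed -/
theorem State.mono {al al' nu lam : ℕ} (h : al' ≤ al) (hst : State a b al nu lam) :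
    State a b al' nu lam := by
  obtain ⟨P, N, hP, hN, hNP, hlam⟩ := hst
  have hsub : un (fun i : Fin al' => P (Fin.castLE h i)) ⊆ un P := by
    intro e he
    obtain ⟨i, hi⟩ := mem_un.1 he
    exact mem_un.2 ⟨_, hi⟩
  refine ⟨fun i => P (Fin.castLE h i), N, ⟨fun i => hP.1 _, fun i j hij => hP.2 _ _ ?_⟩, hN,
    hNP.mono_right hsub, ?_⟩
  · intro hh
    exact hij (Fin.castLE_injective h hh)
  · intro Y hY hYu
    refine (hlam Y hY hYu).trans (card_le_card ?_)
    exact sdiff_subset_sdiff (Subset.refl _) hsub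

/-- the start -/
theorem State.start (hV : Nonempty V) {m : ℕ} (hm : 0 < m)
    (hcut : ∀ Y : Finset V, Y.Nonempty → Y ≠ univ → 2 * m ≤ (cut a b Y).card) :
    State a b m 0 0 := by
  obtain ⟨T, S, h⟩ := exists_pk (a := a) (b := b) hV (t := m) (u := 0) (by omega)
    (by simpa using hcut)
  refine ⟨T, fun i => i.elim0, h.tT, ⟨fun i => i.elim0, fun i => i.elim0⟩, ?_, ?_⟩
  · rw [disjoint_left]
    intro e he
    obtain ⟨i, -⟩ := mem_un.1 he
    exact i.elim0
  · intro Y _ _
    exact Nat.zero_le _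

/-- `M` rounds -/
theorem rounds {c d : ℕ} (hc : 1 ≤ c) (hd : 2 * d ≤ 3 * c) (hsel : Sel3All c d)
    (hV : Nonempty V) {m : ℕ} (hm : 0 < m)
    (hcut : ∀ Y : Finset V, Y.Nonempty → Y ≠ univ → 2 * m ≤ (cut a b Y).card) (g : ℕ) :
    ∀ M s : ℕ, s + M * (2 * (g + c) + c) ≤ m →
      ∃ lam, State a b s (M * (2 * g + c)) lam ∧
        3 * (M * (2 * g + c)) ≤ 2 * lam + (g + c) := by
  intro M
  induction M with
  | zero =>
    intro s hs
    refine ⟨0, ?_, by omega⟩
    rw [Nat.zero_mul]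
    exact (State.start hV hm hcut).mono (by omega)
  | succ M ih =>
    intro s hs
    have e1 : (M + 1) * (2 * (g + c) + c) = M * (2 * (g + c) + c) + (2 * (g + c) + c) := by ring
    have e2 : (M + 1) * (2 * g + c) = M * (2 * g + c) + (g + c + g) := by ring
    have e3 : M * (2 * g + c) ≤ M * (2 * (g + c) + c) := Nat.mul_le_mul_left _ (by omega)
    obtain ⟨lam, h1, h2⟩ := ih (s + c + (g + c) + (g + c)) (by omega)
    rw [e2]
    exact round hc hd hsel hV hcut h1 (by omega) h2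

/-- **the iteration** -/
theorem iterAll {c d : ℕ} (hsel : Sel3All c d) (hc : 1 ≤ c) (hd : 2 * d ≤ 3 * c) :
    IterAll c := by
  intro M h m s l hch h1 h2 V E _ _ _ _ a b hV hcut
  obtain ⟨g, rfl⟩ : ∃ g, h = g + c := ⟨h - c, by omega⟩
  have hM : 0 < M := by
    by_contra hcon
    have : M = 0 := by omega
    subst this
    omega
  have hm : 0 < m := by
    have := Nat.mul_le_mul hM (show 1 ≤ 2 * (g + c) + c by omega)
    omega
  obtain ⟨lam, ⟨P, N, hP, -, -, hlam⟩, hb⟩ :=
    rounds hc hd hsel hV hm (by simpa using hcut) g M s h1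
  refine ⟨P, hP.2, fun i => (hP.1 i).1, ?_⟩
  intro Y hY hYu
  have h3 := hlam Y hY hYu
  have h4 : l ≤ lam := by nlinarith
  exact h4.trans h3

end Pool.Agent.Lib.MP_21a058_co.Iter
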