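import Pool.Agent.Lib.MP_21a058_co.Iter.Iter
import Pool.Agent.Lib.MP_21a058_co.Duo.Fin3

/-! MP_21a058_co, iteration: the bounds. -/

set_option autoImplicit false

namespace Pool.Agent.Lib.MP_21a058_co.Iter

open Finset
open Pool.Agent.Lib.MP_21a058_co.P Pool.Agent.Lib.MP_21a058_co.Swap

/-- every number of rounds and every size of the rounds -/
theorem all : IterAll 7 := iterAll Duo.sel3All (by norm_num) (by norm_num)

/-- all tuples, all parts, parametric form -/
theorem res_m {r : ℕ} (ks : Fin r → ℕ) (j : Fin r) (M h m : ℕ) (h1 : 7 ≤ h)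
    (h2 : (∑ i ∈ univ.erase j, ks i) + M * (2 * h + 7) ≤ m)
    (h3 : 2 * ks j + h + 21 * M ≤ 6 * M * h) : Arrow (2 * m) ks :=
  num4_m all ks j M h m h1 h2 (by rw [mul_right_comm]; omega)

/-- all tuples, all parts, closed form -/
theorem res_sqrt {r : ℕ} (ks : Fin r → ℕ) (j : Fin r) (k : ℕ)
    (hk : 6 * (∑ i, ks i) + 16 * Nat.sqrt (ks j) + 129 ≤ 3 * k + 2 * ks j) : Arrow k ks :=
  num4_sqrt all ks j k hk

end Pool.Agent.Lib.MP_21a058_co.Iter
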