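import Pool.Agent.Lib.MP_21a058_co.Swap.Cnt3
import Pool.Agent.Lib.MP_21a058_co.Iter.ExtrC

/-! MP_21a058_co, iteration: one round. The state is a packing `P` of `al` trees still to be
used together with `nu` trees `N` of the rest; `lam` is a lower bound for the cuts of the
complement of `P`. A round moves `g + c` trees of `P` to the rest by exchanges and keeps, by
rounding, `s` trees `C` and `g` trees `D` inside the others. -/

set_option autoImplicit false

namespace Pool.Agent.Lib.MP_21a058_co.Iter

open Finset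
open Pool.Agent.Lib.MP_21a058_co.P Pool.Agent.Lib.MP_21a058_co.Every
open Pool.Agent.Lib.MP_21a058_co.Swap

variable {V E : Type} [Fintype V] [DecidableEq V] [Fintype E] [DecidableEq E] (a b : E → V)

/-- the state of the iteration -/
def State (al nu lam : ℕ) : Prop :=
  ∃ (P : Fin al → Finset E) (N : Fin nu → Finset E), Trees a b P ∧ Trees a b N ∧
    Disjoint (un N) (un P) ∧
    ∀ Y : Finset V, Y.Nonempty → Y ≠ univ → lam ≤ (cut a b Y \ un P).card

variable {a b}

omit [Fintype V] [DecidableEq V] in
theorem un_append {m n : ℕ} (N : Fin m → Finset E) (B : Fin n → Finset E) :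
    un (Fin.append N B) = un N ∪ un B := by
  ext e
  rw [mem_union, mem_un, mem_un, mem_un]
  constructor
  · rintro ⟨i, hi⟩
    refine Fin.addCases (fun j hj => ?_) (fun j hj => ?_) i hi
    · rw [Fin.append_left] at hj
      exact Or.inl ⟨j, hj⟩
    · rw [Fin.append_right] at hj
      exact Or.inr ⟨j, hj⟩
  · rintro (⟨j, hj⟩ | ⟨j, hj⟩)
    · exact ⟨Fin.castAdd n j, by rwa [Fin.append_left]⟩
    · exact ⟨Fin.natAdd m j, by rwa [Fin.append_right]⟩

theorem trees_append {m n : ℕ} {N : Fin m → Finset E} {B : Fin n → Finset E}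
    (hN : Trees a b N) (hB : Trees a b B) (h : Disjoint (un N) (un B)) :
    Trees a b (Fin.append N B) := by
  have hd : ∀ i j, Disjoint (N i) (B j) := by
    intro i j
    rw [disjoint_left]
    intro e h1 h2
    exact disjoint_left.1 h (mem_un.2 ⟨i, h1⟩) (mem_un.2 ⟨j, h2⟩)
  constructor
  · intro i
    refine Fin.addCases (fun j => ?_) (fun j => ?_) i
    · rw [Fin.append_left]
      exact hN.1 j
    · rw [Fin.append_right]
      exact hB.1 j
  · intro i j
    refine Fin.addCases (fun x => ?_) (fun x => ?_) i <;>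
      refine Fin.addCases (fun y => ?_) (fun y => ?_) j
    · rw [Fin.append_left, Fin.append_left]
      intro hne
      exact hN.2 x y fun hxy => hne (by rw [hxy])
    · rw [Fin.append_left, Fin.append_right]
      intro _
      exact hd x y
    · rw [Fin.append_left, Fin.append_right]
      intro _
      exact (hd y x).symm
    · rw [Fin.append_right, Fin.append_right]
      intro hne
      exact hB.2 x y fun hxy => hne (by rw [hxy])

/-- disjoint spanning trees cross every cut -/
theorem trees_cut {n : ℕ} {D : Fin n → Finset E} (hD : Trees a b D) {Y : Finset V}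
    (hY : Y.Nonempty) (hYu : Y ≠ univ) : n ≤ (un D ∩ cut a b Y).card := by
  have h1 : (un D ∩ cut a b Y).card = ∑ i, (D i ∩ cut a b Y).card := by
    unfold un
    rw [biUnion_inter, card_biUnion]
    intro i _ j _ hij
    exact (hD.2 i j hij).mono inter_subset_left inter_subset_left
  have h2 : ∑ _j : Fin n, 1 ≤ ∑ j : Fin n, (D j ∩ cut a b Y).card :=
    sum_le_sum fun j _ => one_le_cut (hD.1 j) hY hYu
  rw [sum_const, card_univ, Fintype.card_fin, smul_eq_mul, mul_one] at h2
  omega

/-- the numbers of a weak cut: `dR` edges of the rest, `dT` of the `t = p + h` trees, `dC` of the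
trees kept -/
theorem round_num {p h d dR dT dC : ℕ} (ht : 0 < p + h)
    (hround : (p + h) * dC ≤ p * dT + d * (p + h)) (hT : 2 * (p + h) ≤ dT) :
    dR + 2 * h + dC ≤ dR + dT + d := by
  have h1 : (p + h) * (2 * h + dC) ≤ (p + h) * (dT + d) := by
    have h2 : h * (2 * (p + h)) ≤ h * dT := Nat.mul_le_mul_left _ hT
    nlinarith
  have h3 := Nat.le_of_mul_le_mul_left h1 ht
  omega

/-- **one round** -/
theorem round {c d : ℕ} (hc : 1 ≤ c) (hd : 2 * d ≤ 3 * c) (hsel : Sel3All c d)
    (hV : Nonempty V) {m : ℕ}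
    (hcut : ∀ Y : Finset V, Y.Nonempty → Y ≠ univ → 2 * m ≤ (cut a b Y).card)
    {s g nu lam : ℕ} (hst : State a b (s + c + (g + c) + (g + c)) nu lam)
    (hm : s + c + (g + c) + (g + c) + nu ≤ m) (hinv : 3 * nu ≤ 2 * lam + (g + c)) :
    ∃ lam', State a b s (nu + (g + c + g)) lam' ∧
      3 * (nu + (g + c + g)) ≤ 2 * lam' + (g + c) := by
  classical
  obtain ⟨r⟩ := id hV
  obtain ⟨P, N, hP, hN, hNP, hlam⟩ := hst
  obtain ⟨l', hl1, hl2⟩ : ∃ l', 2 * l' ≤ 3 * (nu + (g + c)) ∧ 3 * (nu + (g + c)) ≤ 2 * l' + 1 :=
    ⟨3 * (nu + (g + c)) / 2, by omega, by omega⟩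
  have hex := extrB a b r (q := g + c) (l := l') (Nat.le_add_left _ _) P hP ⟨N, hN, hNP⟩ hlam hl1
    (by omega)
  rw [Nat.add_sub_cancel] at hex
  obtain ⟨T, B, hT, hB, hTB, hun, hlT, hlmn, htight⟩ := hex
  obtain ⟨C, D, hC, hD, hCT, hDT, hCD, hround⟩ := hsel V E a b s g (s + c + (g + c)) rfl T hT
    (univ.filter fun Y => Y.Nonempty ∧ r ∉ Y ∧ (cut a b Y \ un T).card < l')
    (by intro X hX; exact (mem_filter.1 hX).2.1)
    (by
      intro X hX Y hY
      simp only [mem_filter, mem_univ, true_and] at hX hY
      exact hlmn X Y hX.2.1 hY.2.1 hX.2.2 hY.2.2)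
    (by
      intro Y hY
      simp only [mem_filter, mem_univ, true_and] at hY
      exact htight Y hY.1 hY.2.1 hY.2.2)
  have hTP : un T ⊆ un P := fun e he => hun ▸ mem_union_left _ he
  have hBP : un B ⊆ un P := fun e he => hun ▸ mem_union_right _ he
  have hBD : Disjoint (un B) (un D) := (hTB.mono_left hDT).symm
  have hNB : Disjoint (un N) (un B) := hNP.mono_right hBP
  have hND : Disjoint (un N) (un D) := hNP.mono_right (hDT.trans hTP)
  -- the new lower bound
  obtain ⟨lam', hx1, hx2, hx3⟩ : ∃ lam', lam' + d ≤ lam + 3 * (g + c) ∧ lam' ≤ l' + g ∧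
      3 * (nu + (g + c + g)) ≤ 2 * lam' + (g + c) :=
    ⟨min (lam + 3 * (g + c) - d) (l' + g), by omega, by omega, by omega⟩
  refine ⟨lam', ⟨C, Fin.append N (Fin.append B D), hC, ?_, ?_, ?_⟩, hx3⟩
  · apply trees_append hN (trees_append hB hD hBD)
    rw [un_append, disjoint_union_right]
    exact ⟨hNB, hND⟩
  · rw [un_append, un_append, disjoint_union_left, disjoint_union_left]
    exact ⟨hNP.mono_right (hCT.trans hTP), (hTB.mono_left hCT).symm, hCD.symm⟩
  -- the cuts
  have key : ∀ Y : Finset V, Y.Nonempty → r ∉ Y → lam' ≤ (cut a b Y \ un C).card := by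
    intro X hX hr
    have hXu : X ≠ univ := fun h => hr (h ▸ mem_univ r)
    have hsum : ∀ F : Finset E, (cut a b X \ F).card + (F ∩ cut a b X).card =
        (cut a b X).card := by
      intro F
      rw [inter_comm]
      exact card_sdiff_add_card_inter _ _
    by_cases hw : (cut a b X \ un T).card < l'
    · have hXL : X ∈ univ.filter fun Y => Y.Nonempty ∧ r ∉ Y ∧
          (cut a b Y \ un T).card < l' := by
        simp [hX, hr, hw]
      have hr1 := hround X hXL
      have hcX := hcut X hX hXu
      have hs1 := hsum (un T)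
      have hs2 := hsum (un C)
      have h5 := hlT X hX hXu
      have h6 := round_num (p := s + c) (h := g + c) (d := d) (dR := (cut a b X \ un T).card)
        (by omega) hr1 (by omega)
      omega
    · push Not at hw
      have h1 : (cut a b X \ un T) ∪ (un D ∩ cut a b X) ⊆ cut a b X \ un C := by
        intro e he
        rcases mem_union.1 he with he | he
        · rw [mem_sdiff] at he ⊢
          exact ⟨he.1, fun h => he.2 (hCT h)⟩
        · rw [mem_inter] at he
          rw [mem_sdiff]
          exact ⟨he.2, fun h => disjoint_left.1 hCD h he.1⟩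
      have h2 : Disjoint (cut a b X \ un T) (un D ∩ cut a b X) := by
        rw [disjoint_left]
        intro e he hf
        exact (mem_sdiff.1 he).2 (hDT (mem_inter.1 hf).1)
      have h3 := card_le_card h1
      rw [card_union_of_disjoint h2] at h3
      have h4 := trees_cut hD hX hXu
      omega
  intro Y hY hYu
  by_cases hr : r ∈ Y
  · rw [← cnt_cut_compl]
    apply key
    · rw [nonempty_iff_ne_empty]
      intro h
      exact hYu (compl_eq_empty_iff Y |>.1 h)
    · simpa using hr
  · exact key Y hY hr

end Pool.Agent.Lib.MP_21a058_co.Iter
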